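import Pool.Agent.Y305.BC.As5
import Pool.Agent.Y340.BC.Lin
import Pool.Agent.Y785.BC.Cut
import Pool.Agent.Y785.BC.Emb
import Pool.Agent.Y764.BC.Pot
import Pool.Agent.Y96.BC.Qsm
import Pool.Agent.Y446.BC.Fou
import Pool.Agent.Y325.BC.Gr
import Pool.Agent.Y325.BC.Bd
import Pool.Agent.Y325.BC.Cal
import Pool.Agent.Y688.BC.St
import Pool.Agent.Y897.BC.Tra
import Pool.Agent.Y361.BC.Dim
import Pool.Agent.Y305.BC.Can

/-!
# Genuine boundary singularities of dimension one (MP_08407f_an)

The definitions are in `Pool/Agent/Y305/BC/Defs.lean`.  The current is the sum of three pieces of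
holomorphic curves in `ℂ² = ℝ⁴`: the graphs of `P` and `P - q` over the closed unit disc and the
graph of `M` over the annulus `1 ≤ |z| ≤ 2`.  Here `q` is holomorphic in the disc, smooth up to the
circle and vanishes exactly at the points of a Cantor set of dimension one of the circle; `M` equals
`P` and `P - q` alternately on the gaps of the Cantor set.
-/

set_option autoImplicit false

open Pool.Agent.Y305.BC

namespace Pool.Agent.Results.MP_08407f_an.GenuineDimensionOne

/-- There are two disjoint smooth closed curves in `ℝ⁴` which bound a mass-minimizing integer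
rectifiable current whose genuine boundary singularities form a set of dimension at least one. -/
theorem result : ∃ (c : Fin 2 → ℝ → E) (T : F2 → ℝ), ClosedCurves c ∧ Minimizing c T ∧
    1 ≤ dimH {x | Genuine c T x} :=
  assembly Pool.Agent.Y305.BC.can Pool.Agent.Y361.BC.dim Pool.Agent.Y764.BC.pot
    Pool.Agent.Y96.BC.qsm Pool.Agent.Y446.BC.fou Pool.Agent.Y325.BC.gr_ok Pool.Agent.Y325.BC.bd
    Pool.Agent.Y688.BC.st Pool.Agent.Y325.BC.cal Pool.Agent.Y340.BC.lin Pool.Agent.Y340.BC.far
    Pool.Agent.Y785.BC.cut Pool.Agent.Y897.BC.Tra.tra Pool.Agent.Y785.BC.emb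

end Pool.Agent.Results.MP_08407f_an.GenuineDimensionOne
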